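import Pool.Agent.L0h34.CW.Sub
import Pool.Agent.H.MP_759ce5_an.A

/-!
# Grigorchuk's group is not co-context-free

The first Grigorchuk group has polynomial (and unbounded) period growth; it was the natural candidate
for a positive answer to Q1, and the problem file notes that it is not known whether it is
co-context-free.  It is not, and it is not even a subgroup of a co-context-free group: we show that
every finitely generated torsion group which embeds in a co-context-free group is finite.  So a
positive answer to Q1 cannot come from a torsion group, or from a group containing one of the known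
finitely generated infinite torsion groups.

For the proof see `Pool.Agent.Results.MP_0f943d_al.TorsionSubgroups` (the same theorem in another
context) and the files in `Pool/Agent/L0h34/CW`.
-/

set_option autoImplicit false

namespace Pool.Agent.Results.MP_5fffd4_al.GrigorchukGroup

open Pool.Agent.L0h34.CW

/-- The condition on the pair (group, generators) of Q1: `f 0, …, f (k - 1)` generate `G` (as a
monoid) and the words with nontrivial value form a context-free language. -/
def IsCoCF {G : Type} [Group G] {k : ℕ} (f : Fin k → G) : Prop :=
  Submonoid.closure (Set.range f) = ⊤ ∧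
  Language.IsContextFree ({w : List (Fin k) | (w.map f).prod ≠ 1} : Language (Fin k))

/-- `G` is (finitely generated and) co-context-free. -/
def CoCF (G : Type) [Group G] : Prop := ∃ (k : ℕ) (f : Fin k → G), IsCoCF f

/-- The names of the four generators of Grigorchuk's group. -/
inductive Gen
  | a | b | c | d

/-- The action of the generators on the vertices of the binary tree (`false` is 0, `true` is 1):
`a` exchanges the two subtrees of the root, `b = (a, c)`, `c = (a, d)`, `d = (1, b)`. -/
def act : Gen → List Bool → List Bool
  | _, [] => []
  | .a, false :: w => true :: w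
  | .a, true :: w => false :: w
  | .b, false :: w => false :: act .a w
  | .b, true :: w => true :: act .c w
  | .c, false :: w => false :: act .a w
  | .c, true :: w => true :: act .d w
  | .d, false :: w => false :: w
  | .d, true :: w => true :: act .b w

theorem act_act (s : Gen) (w : List Bool) : act s (act s w) = w := by
  induction w generalizing s with
  | nil => cases s <;> rfl
  | cons x w ih => cases s <;> cases x <;> simp [act, ih]

/-- The generators as permutations of the vertices. -/
def gen (s : Gen) : Equiv.Perm (List Bool) := ⟨act s, act s, act_act s, act_act s⟩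

/-- The first Grigorchuk group. -/
def Grig : Subgroup (Equiv.Perm (List Bool)) := Subgroup.closure (Set.range gen)

section
open Pool.Agent.Lib.helper12.Grig (torsion)

/-- The same names in the library. -/
def toLib : Gen → Pool.Agent.Lib.helper12.Grig.Gen
  | .a => .a
  | .b => .b
  | .c => .c
  | .d => .d

theorem act_toLib (s : Gen) (w : List Bool) :
    Pool.Agent.Lib.helper12.Grig.act (toLib s) w = act s w := by
  induction w generalizing s with
  | nil => cases s <;> rfl
  | cons x w ih =>
    cases s <;> cases x <;>
      simp only [act, toLib, Pool.Agent.Lib.helper12.Grig.act] <;>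
      first
        | rfl
        | (rw [← ih]; rfl)

theorem gen_toLib (s : Gen) : Pool.Agent.Lib.helper12.Grig.gen (toLib s) = gen s :=
  Equiv.ext fun w => act_toLib s w

theorem grig_eq : Grig = Pool.Agent.Lib.helper12.Grig.Grig := by
  unfold Grig Pool.Agent.Lib.helper12.Grig.Grig
  congr 1
  ext x
  constructor
  · rintro ⟨s, rfl⟩
    exact ⟨toLib s, gen_toLib s⟩
  · rintro ⟨s, rfl⟩
    cases s
    · exact ⟨.a, (gen_toLib .a).symm⟩
    · exact ⟨.b, (gen_toLib .b).symm⟩
    · exact ⟨.c, (gen_toLib .c).symm⟩
    · exact ⟨.d, (gen_toLib .d).symm⟩

theorem grig_tors : Tors Grig := by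
  rintro ⟨g, hg⟩
  have hg' := hg
  rw [grig_eq] at hg'
  obtain ⟨n, hn, hn'⟩ := isOfFinOrder_iff_pow_eq_one.1 (torsion ⟨g, hg'⟩)
  have hn'' : g ^ n = 1 := congrArg Subtype.val hn'
  exact ⟨n, hn, Subtype.ext hn''⟩

theorem grig_fg : Group.FG Grig := by
  rw [Group.fg_iff_subgroup_fg]
  refine (Subgroup.fg_iff _).2 ⟨Set.range gen, rfl, ?_⟩
  have : Set.range gen ⊆ {gen .a, gen .b, gen .c, gen .d} := by
    rintro x ⟨s, rfl⟩
    cases s <;> simp
  exact (Set.toFinite _).subset this

theorem grig_infinite : Infinite Grig := by
  by_contra hfin
  rw [not_infinite_iff_finite] at hfin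
  have h1 : ∀ n : ℕ, 2 ^ n ≤ Nat.card Grig := by
    intro n
    have h2 : Function.Surjective (fun g : Grig =>
        (⟨(g : Equiv.Perm (List Bool)) (List.replicate n false), by
          have hg : (g : Equiv.Perm (List Bool)) ∈ Pool.Agent.Lib.helper12.Grig.Grig :=
            grig_eq ▸ g.2
          rw [Pool.Agent.H.MP_759ce5_an.len hg]
          simp⟩ : List.Vector Bool n)) := by
      rintro ⟨v, hv⟩
      obtain ⟨g, hg, hgv⟩ := Pool.Agent.H.MP_759ce5_an.trans (List.replicate n false) v
        (by simp [hv])
      rw [← grig_eq] at hg
      exact ⟨⟨g, hg⟩, Subtype.ext hgv⟩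
    have h3 : Nat.card (List.Vector Bool n) ≤ Nat.card Grig :=
      Nat.card_le_card_of_surjective _ h2
    have h4 : Nat.card (List.Vector Bool n) = 2 ^ n := by
      rw [Nat.card_eq_fintype_card, card_vector, Fintype.card_bool]
    rwa [h4] at h3
  have h5 := h1 (Nat.card Grig)
  exact absurd h5 (not_le.2 Nat.lt_two_pow_self)

end

/-- **Grigorchuk's group is not co-context-free.**  The first Grigorchuk group (finitely generated,
infinite, torsion) does not embed in any co-context-free group; in particular it is not
co-context-free.  More generally no finitely generated infinite torsion group `H` embeds in a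
co-context-free group `G`; in particular infinite co-context-free groups are not torsion. -/
theorem result :
    (Group.FG Grig ∧ Infinite Grig ∧ ∀ g : Grig, ∃ n : ℕ, 0 < n ∧ g ^ n = 1) ∧
    ¬ CoCF Grig ∧
    (∀ (G : Type) [Group G], CoCF G → ¬ ∃ φ : Grig →* G, Function.Injective φ) ∧
    (∀ (G : Type) [Group G], CoCF G → ∀ (H : Type) [Group H] [Group.FG H] [Infinite H],
      (∀ h : H, ∃ n : ℕ, 0 < n ∧ h ^ n = 1) → ¬ ∃ φ : H →* G, Function.Injective φ) := by
  have key : ∀ (G : Type) [Group G], CoCF G → ∀ (H : Type) [Group H] [Group.FG H] [Infinite H],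
      (∀ h : H, ∃ n : ℕ, 0 < n ∧ h ^ n = 1) → ¬ ∃ φ : H →* G, Function.Injective φ := by
    rintro G _ ⟨k, f, hf, hcf⟩ H _ _ _ ht ⟨φ, hφ⟩
    have hsurj : Function.Surjective (ev f) := by
      intro x
      have hx : x ∈ Submonoid.closure (Set.range f) := by rw [hf]; exact Submonoid.mem_top x
      clear hf hcf
      induction hx using Submonoid.closure_induction with
      | mem x hx =>
        obtain ⟨i, rfl⟩ := hx
        exact ⟨[i], ev_singleton i⟩
      | one => exact ⟨[], rfl⟩
      | mul x y _ _ hx hy =>
        obtain ⟨u, rfl⟩ := hx
        obtain ⟨v, rfl⟩ := hy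
        exact ⟨u ++ v, ev_append u v⟩
    have := finite_of_embeds f hsurj hcf H φ hφ ht
    exact not_finite H
  have hfg := grig_fg
  have hinf := grig_infinite
  refine ⟨⟨grig_fg, grig_infinite, grig_tors⟩, ?_, ?_, key⟩
  · intro h
    exact key Grig h Grig grig_tors ⟨MonoidHom.id _, Function.injective_id⟩
  · intro G _ hG
    exact key G hG Grig grig_tors

end Pool.Agent.Results.MP_5fffd4_al.GrigorchukGroup
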